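import Mathlib

namespace Pool.Agent.TH345.Opening

open Cardinal Metric Set Submodule

universe u

/-- The real span of a set contains a dense subset of small cardinality. -/
theorem card_dense_of_span {E : Type u} [NormedAddCommGroup E] [NormedSpace ℝ E] (B : Set E) :
    ∃ S : Set E, S ⊆ (span ℝ B : Set E) ∧ (span ℝ B : Set E) ⊆ closure S ∧
      #S ≤ max #B ℵ₀ := by
  classical
  let φ : (B →₀ ℚ) → E := fun c => c.sum (fun b q => (q : ℝ) • (b : E))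
  have hφadd : ∀ c d, φ (c + d) = φ c + φ d := by
    intro c d
    exact Finsupp.sum_add_index' (by intro a; simp) (by intro a b₁ b₂; push_cast; rw [add_smul])
  have hφsmul : ∀ (q : ℚ) c, φ (q • c) = (q : ℝ) • φ c := by
    intro q c
    show (q • c).sum _ = _
    rw [Finsupp.sum_smul_index' (by intro i; simp), Finsupp.smul_sum]
    apply Finsupp.sum_congr
    intro x _
    simp [mul_smul]
  let S : Set E := range φ
  have hcl_add : ∀ x ∈ closure S, ∀ y ∈ closure S, x + y ∈ closure S := by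
    intro x hx y hy
    refine map_mem_closure₂ continuous_add hx hy ?_
    rintro _ ⟨c, rfl⟩ _ ⟨d, rfl⟩
    exact ⟨c + d, hφadd c d⟩
  have hcl_smul : ∀ (r : ℝ), ∀ x ∈ closure S, r • x ∈ closure S := by
    intro r x hx
    have hr : r ∈ closure (range ((↑) : ℚ → ℝ)) := by
      rw [Rat.denseRange_cast.closure_range]; trivial
    refine map_mem_closure₂ (f := fun (r : ℝ) (x : E) => r • x) continuous_smul hr hx ?_
    rintro _ ⟨q, rfl⟩ _ ⟨d, rfl⟩
    exact ⟨q • d, hφsmul q d⟩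
  refine ⟨S, ?_, ?_, ?_⟩
  · rintro _ ⟨c, rfl⟩
    refine Submodule.sum_mem _ ?_
    intro b _
    exact Submodule.smul_mem _ _ (subset_span b.2)
  · intro x hx
    refine Submodule.span_induction (p := fun x _ => x ∈ closure S) ?_ ?_ ?_ ?_ hx
    · intro b hb
      apply subset_closure
      refine ⟨Finsupp.single ⟨b, hb⟩ 1, ?_⟩
      show (Finsupp.single _ _).sum _ = _
      rw [Finsupp.sum_single_index] <;> simp
    · apply subset_closure
      exact ⟨0, by show (0 : B →₀ ℚ).sum _ = _; simp⟩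
    · intro x y _ _ hx hy
      exact hcl_add x hx y hy
    · intro r x _ hx
      exact hcl_smul r x hx
  · calc #S ≤ #(B →₀ ℚ) := mk_range_le
      _ ≤ max #B ℵ₀ := by
        by_cases hB : Nonempty B
        · rw [mk_finsupp_lift_of_infinite']
          simp
        · have : IsEmpty B := not_nonempty_iff.mp hB
          have : Subsingleton (B →₀ ℚ) := inferInstance
          calc #(B →₀ ℚ) ≤ 1 := le_one_iff_subsingleton.mpr this
            _ ≤ ℵ₀ := one_le_aleph0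
            _ ≤ _ := le_max_right _ _

/-- A functional separating a vector from a subspace. -/
theorem exists_functional {E : Type u} [NormedAddCommGroup E] [NormedSpace ℝ E]
    (W : Submodule ℝ E) (y : E) (r : ℝ) (h : ∀ w ∈ W, r ≤ ‖y - w‖) :
    ∃ f : StrongDual ℝ E, (∀ x, |f x| ≤ ‖x‖) ∧ (∀ w ∈ W, f w = 0) ∧ r ≤ f y := by
  obtain ⟨g, hg, hgy⟩ := exists_dual_vector'' ℝ (Submodule.Quotient.mk y : E ⧸ W)
  refine ⟨LinearMap.mkContinuous (g.toLinearMap ∘ₗ W.mkQ) 1 ?_, ?_, ?_, ?_⟩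
  · intro x
    rw [one_mul]
    calc ‖g (W.mkQ x)‖ ≤ ‖g‖ * ‖W.mkQ x‖ := g.le_opNorm _
      _ ≤ 1 * ‖x‖ := by
        refine mul_le_mul hg ?_ (norm_nonneg _) zero_le_one
        exact Submodule.Quotient.norm_mk_le W x
      _ = ‖x‖ := one_mul _
  · intro x
    show |g (W.mkQ x)| ≤ ‖x‖
    calc |g (W.mkQ x)| ≤ ‖g‖ * ‖W.mkQ x‖ := g.le_opNorm _
      _ ≤ 1 * ‖x‖ := by
        refine mul_le_mul hg ?_ (norm_nonneg _) zero_le_one
        exact Submodule.Quotient.norm_mk_le W x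
      _ = ‖x‖ := one_mul _
  · intro w hw
    show g (W.mkQ w) = 0
    have : W.mkQ w = 0 := by simpa using hw
    rw [this, map_zero]
  · show r ≤ g (W.mkQ y)
    have h1 : g (W.mkQ y) = ‖(Submodule.Quotient.mk y : E ⧸ W)‖ := by
      simpa using hgy
    rw [h1]
    have h2 : ‖(Submodule.Quotient.mk y : E ⧸ W)‖ = infDist y (W : Set E) :=
      QuotientAddGroup.norm_mk (S := W.toAddSubgroup) y
    rw [h2]
    refine (le_infDist ⟨0, W.zero_mem⟩).mpr ?_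
    intro w hw
    rw [dist_eq_norm]
    exact h w hw

/-- The final chain of inequalities. -/
theorem chain {E : Type u} [NormedAddCommGroup E] [NormedSpace ℝ E]
    (G₁ W : Submodule ℝ E)
    (hGW : ∀ f : StrongDual ℝ E, (∀ x, |f x| ≤ ‖x‖) → (∀ w ∈ W, f w = 0) →
      ∀ z ∈ G₁, |f z| ≤ 13 / 25 * ‖z‖)
    (y z j k z₁ z₂ : E) (hy : ‖y‖ = 1) (hyW : ∀ w ∈ W, (99 / 100 : ℝ) ≤ ‖y - w‖)
    (hz : z ∈ G₁) (hz₁ : z₁ ∈ G₁) (hz₂ : z₂ ∈ G₁) (hj : j ∈ W) (hk : k ∈ W)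
    (_hk1 : ‖k‖ = 1)
    (hyz : ‖y - z‖ ≤ 13 / 25) (hjz : ‖j - z‖ ≤ 13 / 25) (hkz : ‖k - z‖ ≤ 13 / 25)
    (hu : ‖(y - j) - z₁‖ ≤ 13 / 25 * ‖y - j‖) (huk : ‖(k - j) - z₁‖ ≤ 13 / 25 * ‖k - j‖)
    (hv : ‖(y - k) - z₂‖ ≤ 13 / 25 * ‖y - k‖) : False := by
  obtain ⟨f, hf1, hfW, hfy⟩ := exists_functional W y (99 / 100) hyW
  have hfG := hGW f hf1 hfW
  -- extend the restriction of `f` to `G₁`
  obtain ⟨g, hgG, hgn⟩ := exists_extension_norm_eq G₁ (f.comp G₁.subtypeL)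
  have hgnorm : ‖g‖ ≤ 13 / 25 := by
    rw [hgn]
    refine ContinuousLinearMap.opNorm_le_bound _ (by norm_num) ?_
    intro x
    exact hfG x x.2
  have hg : ∀ x, |g x| ≤ 13 / 25 * ‖x‖ := by
    intro x
    calc |g x| ≤ ‖g‖ * ‖x‖ := g.le_opNorm x
      _ ≤ _ := mul_le_mul_of_nonneg_right hgnorm (norm_nonneg _)
  have egz : g z = f z := hgG ⟨z, hz⟩
  have egz₁ : g z₁ = f z₁ := hgG ⟨z₁, hz₁⟩
  have egz₂ : g z₂ = f z₂ := hgG ⟨z₂, hz₂⟩
  have fj : f j = 0 := hfW j hj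
  have fk : f k = 0 := hfW k hk
  -- (1)
  have h1 := (abs_le.mp (hf1 (y - z))).2
  rw [map_sub] at h1
  -- (2)
  have h2 := (abs_le.mp (hg (j - z))).1
  rw [map_sub] at h2
  -- (3)
  have hnu : ‖y - j‖ ≤ 26 / 25 := by
    have : y - j = (y - z) - (j - z) := by abel
    rw [this]
    exact (norm_sub_le _ _).trans (by linarith)
  have h3 := (abs_le.mp (hf1 (y - j - z₁))).2
  rw [map_sub, map_sub] at h3
  -- (4)
  have hnk : ‖k - j‖ ≤ 26 / 25 := by
    have : k - j = (k - z) - (j - z) := by abel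
    rw [this]
    exact (norm_sub_le _ _).trans (by linarith)
  have h4 := (abs_le.mp (hg (k - j - z₁))).1
  rw [map_sub, map_sub] at h4
  -- (6)
  have hnv : ‖y - k‖ ≤ 26 / 25 := by
    have : y - k = (y - z) - (k - z) := by abel
    rw [this]
    exact (norm_sub_le _ _).trans (by linarith)
  have h6 := (abs_le.mp (hf1 (y - k - z₂))).2
  have h6' := (abs_le.mp (hg (y - k - z₂))).1
  rw [map_sub, map_sub] at h6 h6'
  have hgy := (abs_le.mp (hg y)).2
  rw [hy] at hgy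
  nlinarith [norm_nonneg (y - j), norm_nonneg (k - j), norm_nonneg (y - k)]

/-- Main lemma, real scalars. -/
theorem core {E : Type u} [NormedAddCommGroup E] [NormedSpace ℝ E]
    (G₁ G₂ : Submodule ℝ E) (θ : ℝ) (hθ : θ < 13 / 25)
    (H1 : ∀ z ∈ G₁, infDist z (G₂ : Set E) ≤ θ * ‖z‖)
    (H2 : ∀ y ∈ G₂, infDist y (G₁ : Set E) ≤ θ * ‖y‖)
    (D : Set E) (hD : D ⊆ (G₁ : Set E)) (hDG : (G₁ : Set E) ⊆ closure D) :
    ∃ S : Set E, S ⊆ (G₂ : Set E) ∧ (G₂ : Set E) ⊆ closure S ∧ #S ≤ max #D ℵ₀ := by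
  classical
  -- approximation in both directions
  have A1 : ∀ z ∈ G₁, ∃ w ∈ G₂, ‖z - w‖ ≤ 13 / 25 * ‖z‖ := by
    intro z hz
    by_cases h0 : z = 0
    · exact ⟨0, G₂.zero_mem, by simp [h0]⟩
    · have hpos : 0 < ‖z‖ := norm_pos_iff.mpr h0
      have h : infDist z (G₂ : Set E) < 13 / 25 * ‖z‖ :=
        lt_of_le_of_lt (H1 z hz) (mul_lt_mul_of_pos_right hθ hpos)
      obtain ⟨w, hw, hw'⟩ := (infDist_lt_iff ⟨0, G₂.zero_mem⟩).mp h
      exact ⟨w, hw, by rw [← dist_eq_norm]; exact hw'.le⟩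
  have A2 : ∀ y ∈ G₂, y ≠ 0 → ∃ z ∈ D, ‖y - z‖ ≤ 13 / 25 * ‖y‖ := by
    intro y hy h0
    have hpos : 0 < ‖y‖ := norm_pos_iff.mpr h0
    have h : infDist y (G₁ : Set E) < 13 / 25 * ‖y‖ :=
      lt_of_le_of_lt (H2 y hy) (mul_lt_mul_of_pos_right hθ hpos)
    obtain ⟨w, hw, hw'⟩ := (infDist_lt_iff ⟨0, G₁.zero_mem⟩).mp h
    have hwc := hDG hw
    rw [Metric.mem_closure_iff] at hwc
    obtain ⟨z, hzD, hz⟩ := hwc (13 / 25 * ‖y‖ - dist y w) (by linarith)
    refine ⟨z, hzD, ?_⟩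
    rw [← dist_eq_norm]
    have := dist_triangle y w z
    linarith
  by_contra hno
  push Not at hno
  -- choice functions
  choose! w hwG hw using A1
  let P : E → E → Prop := fun z y => y ∈ G₂ ∧ ‖y‖ = 1 ∧ ‖y - z‖ ≤ 13 / 25
  let J : E → E := fun z => if h : ∃ y, P z y then h.choose else 0
  have hJ : ∀ z, (∃ y, P z y) → P z (J z) := by
    intro z h
    simp only [J, dif_pos h]
    exact h.choose_spec
  have hJG : ∀ z, J z ∈ G₂ := by
    intro z
    by_cases h : ∃ y, P z y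
    · exact (hJ z h).1
    · simp only [J, dif_neg h]; exact G₂.zero_mem
  let Q : E → E → E → Prop := fun z z₁ y => P z y ∧ ‖(y - J z) - z₁‖ ≤ 13 / 25 * ‖y - J z‖
  let K : E → E → E := fun z z₁ => if h : ∃ y, Q z z₁ y then h.choose else 0
  have hK : ∀ z z₁, (∃ y, Q z z₁ y) → Q z z₁ (K z z₁) := by
    intro z z₁ h
    simp only [K, dif_pos h]
    exact h.choose_spec
  have hKG : ∀ z z₁, K z z₁ ∈ G₂ := by
    intro z z₁
    by_cases h : ∃ y, Q z z₁ y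
    · exact (hK z z₁ h).1.1
    · simp only [K, dif_neg h]; exact G₂.zero_mem
  let B₁ : Set E := range (fun z : D => w z)
  let B₂ : Set E := range (fun z : D => J z)
  let B₃ : Set E := range (fun p : D × D => K p.1 p.2)
  let B : Set E := B₁ ∪ B₂ ∪ B₃
  have hBG : B ⊆ (G₂ : Set E) := by
    rintro x ((⟨z, rfl⟩ | ⟨z, rfl⟩) | ⟨p, rfl⟩)
    · exact hwG z (hD z.2)
    · exact hJG z
    · exact hKG p.1 p.2
  have hBcard : #B ≤ max #D ℵ₀ := by
    set m := max #D ℵ₀ with hm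
    have hmω : ℵ₀ ≤ m := le_max_right _ _
    have hDm : #D ≤ m := le_max_left _ _
    have h1 : #B₁ ≤ m := mk_range_le.trans hDm
    have h2 : #B₂ ≤ m := mk_range_le.trans hDm
    have h3 : #B₃ ≤ m := by
      refine mk_range_le.trans ?_
      rw [mk_prod]
      simp only [lift_id]
      calc #D * #D ≤ m * m := mul_le_mul' hDm hDm
        _ = m := mul_eq_self hmω
    calc #B ≤ #(B₁ ∪ B₂ : Set E) + #B₃ := mk_union_le _ _
      _ ≤ (#B₁ + #B₂) + #B₃ := add_le_add (mk_union_le _ _) le_rfl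
      _ ≤ (m + m) + m := add_le_add (add_le_add h1 h2) h3
      _ = m := by rw [add_eq_self hmω, add_eq_self hmω]
  obtain ⟨S, hS1, hS2, hS3⟩ := card_dense_of_span B
  have hspan : span ℝ B ≤ G₂ := span_le.mpr hBG
  have hS3' : #S ≤ max #D ℵ₀ := by
    refine hS3.trans (max_le hBcard (le_max_right _ _))
  have hnot : ¬ (G₂ : Set E) ⊆ closure S := fun h =>
    absurd hS3' (not_le.mpr (hno S (hS1.trans hspan) h))
  -- Riesz lemma inside `G₂`
  let F : Submodule ℝ G₂ := ((span ℝ B).topologicalClosure).comap G₂.subtype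
  have hFc : IsClosed (F : Set G₂) :=
    (Submodule.isClosed_topologicalClosure _).preimage continuous_subtype_val
  have hF : ∃ x : G₂, x ∉ F := by
    by_contra hcon
    push Not at hcon
    apply hnot
    intro x hx
    have h1 : x ∈ closure (span ℝ B : Set E) := hcon ⟨x, hx⟩
    have h2 : closure (span ℝ B : Set E) ⊆ closure S := closure_minimal hS2 isClosed_closure
    exact h2 h1
  obtain ⟨x₀, hx₀F, hx₀⟩ := riesz_lemma hFc hF (r := 99 / 100) (by norm_num)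
  have hx₀ne : (x₀ : E) ≠ 0 := by
    intro h
    apply hx₀F
    have : x₀ = 0 := Subtype.ext h
    rw [this]
    exact F.zero_mem
  have hx₀pos : 0 < ‖(x₀ : E)‖ := norm_pos_iff.mpr hx₀ne
  set y : E := (‖(x₀ : E)‖)⁻¹ • (x₀ : E) with hydef
  have hyG : y ∈ G₂ := G₂.smul_mem _ x₀.2
  have hy1 : ‖y‖ = 1 := by
    rw [hydef, norm_smul, norm_inv, norm_norm, inv_mul_cancel₀ hx₀pos.ne']
  have hyW : ∀ v ∈ span ℝ B, (99 / 100 : ℝ) ≤ ‖y - v‖ := by
    intro v hv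
    have hv' : ‖(x₀ : E)‖ • v ∈ span ℝ B := Submodule.smul_mem _ _ hv
    have h1 := hx₀ ⟨‖(x₀ : E)‖ • v, hspan hv'⟩ (by
      show ‖(x₀ : E)‖ • v ∈ (span ℝ B).topologicalClosure
      exact Submodule.le_topologicalClosure _ hv')
    have h2 : (x₀ : E) - ‖(x₀ : E)‖ • v = ‖(x₀ : E)‖ • (y - v) := by
      rw [smul_sub, hydef, smul_smul, mul_inv_cancel₀ hx₀pos.ne', one_smul]
    have h3 : 99 / 100 * ‖(x₀ : E)‖ ≤ ‖(x₀ : E) - ‖(x₀ : E)‖ • v‖ := h1
    rw [h2, norm_smul, norm_norm, mul_comm] at h3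
    exact le_of_mul_le_mul_left h3 hx₀pos
  have hyne : y ≠ 0 := by
    intro h
    rw [h, norm_zero] at hy1
    exact zero_ne_one hy1
  -- the points
  obtain ⟨z, hzD, hz⟩ := A2 y hyG hyne
  rw [hy1, mul_one] at hz
  have hPz : P z (J z) := hJ z ⟨y, hyG, hy1, hz⟩
  have hjB : J z ∈ span ℝ B := subset_span (Or.inl (Or.inr ⟨⟨z, hzD⟩, rfl⟩))
  have hune : ∀ v ∈ span ℝ B, y - v ≠ 0 := by
    intro v hv h
    have := hyW v hv
    rw [h, norm_zero] at this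
    norm_num at this
  obtain ⟨z₁, hz₁D, hz₁⟩ := A2 (y - J z) (G₂.sub_mem hyG (hJG z)) (hune _ hjB)
  have hQz : Q z z₁ (K z z₁) := hK z z₁ ⟨y, ⟨hyG, hy1, hz⟩, hz₁⟩
  have hkB : K z z₁ ∈ span ℝ B := subset_span (Or.inr ⟨(⟨z, hzD⟩, ⟨z₁, hz₁D⟩), rfl⟩)
  obtain ⟨z₂, hz₂D, hz₂⟩ := A2 (y - K z z₁) (G₂.sub_mem hyG (hKG z z₁)) (hune _ hkB)
  refine chain G₁ (span ℝ B) ?_ y z (J z) (K z z₁) z₁ z₂ hy1 hyW (hD hzD) (hD hz₁D) (hD hz₂D)
    hjB hkB hQz.1.2.1 hz hPz.2.2 hQz.1.2.2 hz₁ hQz.2 hz₂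
  -- functionals vanishing on the span are small on `G₁`
  intro f hf1 hfW
  have hclosed : IsClosed {x : E | |f x| ≤ 13 / 25 * ‖x‖} :=
    isClosed_le (f.continuous.abs) (continuous_const.mul continuous_norm)
  have hDsub : D ⊆ {x : E | |f x| ≤ 13 / 25 * ‖x‖} := by
    intro x hx
    have hwx : w x ∈ span ℝ B := subset_span (Or.inl (Or.inl ⟨⟨x, hx⟩, rfl⟩))
    have h1 : f x = f (x - w x) := by rw [map_sub, hfW _ hwx, sub_zero]
    show |f x| ≤ _
    rw [h1]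
    exact (hf1 _).trans (hw x (hD hx))
  intro x hx
  exact closure_minimal hDsub hclosed (hDG hx)

end Pool.Agent.TH345.Opening
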