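import Mathlib
import Pool.Agent.Helper325.BorsukUlam

namespace Pool.Agent.TH345.Opening

open Metric Set Submodule Module

universe u

/-- Krein-Krasnoselskii-Milman: a subspace of dimension larger than `dim G₁` contains a nonzero
vector whose distance from `G₁` is its norm. -/
theorem fin_core {E : Type u} [NormedAddCommGroup E] [NormedSpace ℝ E]
    (G₁ : Submodule ℝ E) [FiniteDimensional ℝ G₁] (m : ℕ) (hm : finrank ℝ G₁ = m)
    (L : (Fin (m + 1) → ℝ) →ₗ[ℝ] E) :
    ∃ x, x ≠ 0 ∧ ‖L x‖ ≤ infDist (L x) (G₁ : Set E) := by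
  classical
  by_contra hcon
  push Not at hcon
  have hLc : Continuous L := L.continuous_of_finiteDimensional
  let φ : (Fin (m + 1) → ℝ) → ℝ := fun x => ‖L x‖ + abs (1 - ∑ i, |x i|)
  have hφc : Continuous φ := by
    refine (continuous_norm.comp hLc).add ?_
    refine continuous_abs.comp ?_
    refine continuous_const.sub ?_
    refine continuous_finsetSum _ ?_
    intro i _
    exact continuous_abs.comp (continuous_apply i)
  have hφeven : ∀ x, φ (-x) = φ x := by
    intro x
    simp [φ]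
  let t : (Fin (m + 1) → ℝ) → Set G₁ := fun x => {z | ‖L x - (z : E)‖ < φ x}
  have ht : ∀ x, Convex ℝ (t x) := by
    intro x a ha b hb p q hp hq hpq
    show ‖L x - ((p • a + q • b : G₁) : E)‖ < φ x
    have h1 : L x - ((p • a + q • b : G₁) : E) = p • (L x - a) + q • (L x - b) := by
      have : L x = (p + q) • L x := by rw [hpq, one_smul]
      rw [smul_sub, smul_sub]
      nth_rewrite 1 [this]
      rw [add_smul]
      push_cast
      abel
    rw [h1]
    have ha' : ‖L x - (a : E)‖ < φ x := ha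
    have hb' : ‖L x - (b : E)‖ < φ x := hb
    calc ‖p • (L x - (a : E)) + q • (L x - (b : E))‖
        ≤ ‖p • (L x - (a : E))‖ + ‖q • (L x - (b : E))‖ := norm_add_le _ _
      _ = p * ‖L x - (a : E)‖ + q * ‖L x - (b : E)‖ := by
        rw [norm_smul, norm_smul, Real.norm_of_nonneg hp, Real.norm_of_nonneg hq]
      _ < φ x := by
        rcases hp.eq_or_lt with h | h
        · have hq1 : q = 1 := by linarith
          rw [← h, hq1]; linarith
        · have h2 : p * ‖L x - (a : E)‖ < p * φ x := mul_lt_mul_of_pos_left ha' h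
          have h3 : q * ‖L x - (b : E)‖ ≤ q * φ x := mul_le_mul_of_nonneg_left hb'.le hq
          have h4 : p * φ x + q * φ x = φ x := by rw [← add_mul, hpq, one_mul]
          linarith
  have hloc : ∀ x, ∃ c : G₁, ∀ᶠ y in nhds x, c ∈ t y := by
    intro x
    have hex : ∃ c : G₁, c ∈ t x := by
      by_cases hx : x = 0
      · refine ⟨0, ?_⟩
        show ‖L x - ((0 : G₁) : E)‖ < φ x
        subst hx
        simp [φ]
      · obtain ⟨z, hz, hz'⟩ := (infDist_lt_iff ⟨0, G₁.zero_mem⟩).mp (hcon x hx)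
        refine ⟨⟨z, hz⟩, ?_⟩
        show ‖L x - z‖ < φ x
        rw [← dist_eq_norm]
        have : 0 ≤ abs (1 - ∑ i, |x i|) := abs_nonneg _
        show dist (L x) z < ‖L x‖ + abs (1 - ∑ i, |x i|)
        linarith
    obtain ⟨c, hc⟩ := hex
    refine ⟨c, ?_⟩
    have hopen : IsOpen {y | ‖L y - (c : E)‖ < φ y} :=
      isOpen_lt (continuous_norm.comp (hLc.sub continuous_const)) hφc
    exact hopen.mem_nhds hc
  obtain ⟨g, hg⟩ := exists_continuous_forall_mem_convex_of_local_const ht hloc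
  let F : (Fin (m + 1) → ℝ) → G₁ := fun x => (1 / 2 : ℝ) • (g x - g (-x))
  have hFc : Continuous F := by
    exact (g.continuous.sub (g.continuous.comp continuous_neg)).const_smul (1 / 2 : ℝ)
  have hFodd : ∀ x, F (-x) = -F x := by
    intro x
    show (1 / 2 : ℝ) • (g (-x) - g (- -x)) = -((1 / 2 : ℝ) • (g x - g (-x)))
    rw [neg_neg, ← smul_neg, neg_sub]
  have hFt : ∀ x, ‖L x - (F x : E)‖ < φ x := by
    intro x
    have h1 : ‖L x - (g x : E)‖ < φ x := hg x
    have h2 : ‖L (-x) - (g (-x) : E)‖ < φ (-x) := hg (-x)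
    rw [hφeven, map_neg] at h2
    have h3 : L x - (F x : E) = (1 / 2 : ℝ) • (L x - (g x : E)) -
        (1 / 2 : ℝ) • (-L x - (g (-x) : E)) := by
      have e : (F x : E) = (1 / 2 : ℝ) • ((g x : E) - (g (-x) : E)) := by
        simp [F]
      rw [e]
      module
    rw [h3]
    calc _ ≤ ‖(1 / 2 : ℝ) • (L x - (g x : E))‖ + ‖(1 / 2 : ℝ) • (-L x - (g (-x) : E))‖ :=
          norm_sub_le _ _
      _ = 1 / 2 * ‖L x - (g x : E)‖ + 1 / 2 * ‖-L x - (g (-x) : E)‖ := by
          rw [norm_smul, norm_smul]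
          norm_num
      _ < φ x := by linarith
  let e : G₁ ≃ₗ[ℝ] (Fin m → ℝ) := LinearEquiv.ofFinrankEq _ _ (by rw [hm]; simp)
  have hec : Continuous e := (e : G₁ →ₗ[ℝ] (Fin m → ℝ)).continuous_of_finiteDimensional
  obtain ⟨x, hxK, hx⟩ := Pool.Agent.Helper325.BorsukUlam.borsuk_ulam m (fun x => e (F x))
    (hec.comp hFc) (by intro x; show e (F (-x)) = -e (F x); rw [hFodd, map_neg])
  have hF0 : F x = 0 := by
    have : e (F x) = 0 := hx
    simpa using this
  have h1 := hFt x
  rw [hF0] at h1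
  have hsum : ∑ i, |x i| = 1 := hxK
  have : φ x = ‖L x‖ := by simp [φ, hsum]
  rw [this] at h1
  simp at h1

end Pool.Agent.TH345.Opening
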